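import Mathlib

/-!
# No smoothing threshold for uniform V-cycle contraction when `α ≤ 1/2`
-/

namespace Pool.Agent.Results.MP_89e789_an.NoThreshold

open Matrix

/-- The data of a hierarchy (only the levels `ℓ ≤ L` matter for a hierarchy of depth `L`). -/
structure Hierarchy where
  /-- the dimensions `n_ℓ` -/
  n : ℕ → ℕ
  /-- the system matrices `A_ℓ` -/
  A : (l : ℕ) → Matrix (Fin (n l)) (Fin (n l)) ℝ
  /-- the prolongations `P_ℓ : ℝ^{n_ℓ} → ℝ^{n_{ℓ+1}}` -/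
  P : (l : ℕ) → Matrix (Fin (n (l + 1))) (Fin (n l)) ℝ
  /-- the restrictions `R_ℓ : ℝ^{n_{ℓ+1}} → ℝ^{n_ℓ}` -/
  R : (l : ℕ) → Matrix (Fin (n l)) (Fin (n (l + 1))) ℝ
  /-- the Richardson parameters `Λ_ℓ` -/
  Lam : ℕ → ℝ

/-- The spectral radius of a symmetric real matrix, as a real number. -/
noncomputable def rho {n : ℕ} (A : Matrix (Fin n) (Fin n) ℝ) : ℝ := (spectralRadius ℝ A).toReal

/-- The Euclidean norm. -/
noncomputable def enorm {n : ℕ} (v : Fin n → ℝ) : ℝ := Real.sqrt (v ⬝ᵥ v)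

/-- `⟨u, v⟩_A = uᵀ A v`. -/
noncomputable def innerA {n : ℕ} (A : Matrix (Fin n) (Fin n) ℝ) (u v : Fin n → ℝ) : ℝ :=
  u ⬝ᵥ (A *ᵥ v)

/-- `‖v‖_A = (vᵀ A v)^{1/2}`. -/
noncomputable def normA {n : ℕ} (A : Matrix (Fin n) (Fin n) ℝ) (v : Fin n → ℝ) : ℝ :=
  Real.sqrt (innerA A v v)

namespace Hierarchy

variable (H : Hierarchy)

/-- `Π_ℓ = A_ℓ⁻¹ R_ℓ A_{ℓ+1}`. -/
noncomputable def Pi (l : ℕ) : Matrix (Fin (H.n l)) (Fin (H.n (l + 1))) ℝ :=
  (H.A l)⁻¹ * H.R l * H.A (l + 1)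

/-- The Richardson smoother `K_ℓ = I - Λ_ℓ⁻¹ A_ℓ`. -/
noncomputable def K (l : ℕ) : Matrix (Fin (H.n l)) (Fin (H.n l)) ℝ :=
  1 - (H.Lam l)⁻¹ • H.A l

/-- The error operators `E_ℓ` of the cycle with `m` pre- and `m` post-smoothing steps. -/
noncomputable def E (m p : ℕ) : (l : ℕ) → Matrix (Fin (H.n l)) (Fin (H.n l)) ℝ
  | 0 => 0
  | l + 1 => H.K (l + 1) ^ m * (1 - H.P l * (1 - E m p l ^ p) * H.Pi l) * H.K (l + 1) ^ m

/-- `H` is a hierarchy of depth `L ≥ 1`. -/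
def IsHierarchy (L : ℕ) : Prop :=
  1 ≤ L ∧ (∀ l ≤ L, (H.A l).PosDef) ∧ ∀ l < L, Function.Injective (H.P l).mulVec

/-- (G3). -/
def G3 (L : ℕ) : Prop :=
  ∃ r : ℝ, 0 < r ∧ r < 1 ∧ ∀ l < L, H.R l = r • (H.P l)ᵀ ∧
    H.R l * H.A (l + 1) * H.P l = (2 : ℝ) • H.A l

/-- (R) with constant `C_R`. -/
def RC (CR : ℝ) (L : ℕ) : Prop :=
  ∀ l, 1 ≤ l → l ≤ L → rho (H.A l) ≤ H.Lam l ∧ H.Lam l ≤ CR * rho (H.A l)

/-- `(A2)_α` with constant `C_{A2}`. -/
def A2 (CA al : ℝ) (L : ℕ) : Prop :=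
  ∀ l < L, ∀ v : Fin (H.n (l + 1)) → ℝ,
    |innerA (H.A (l + 1)) ((1 - H.P l * H.Pi l) *ᵥ v) v| ≤
      CA ^ (2 * al) / rho (H.A (l + 1)) ^ al * enorm (H.A (l + 1) *ᵥ v) ^ (2 * al) *
        normA (H.A (l + 1)) v ^ (2 * (1 - al))

end Hierarchy

/-- Uniform V-cycle contraction for `(C_R, C_{A2}, α, m)`: some `δ < 1` bounds the operator norm
`‖E_L‖_{A_L}` of the V-cycle (`p = 1`) for every admissible hierarchy of every depth. -/
def UniformContraction (CR CA al : ℝ) (m : ℕ) : Prop :=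
  ∃ δ : ℝ, δ < 1 ∧ ∀ (H : Hierarchy) (L : ℕ), H.IsHierarchy L → H.G3 L → H.RC CR L →
    H.A2 CA al L → ∀ v, normA (H.A L) (H.E m 1 L *ᵥ v) ≤ δ * normA (H.A L) v

/-! ### The example -/

/-- diagonal entries -/
noncomputable def dg (μ : ℝ) (l : ℕ) : Fin (l + 1) → ℝ := Fin.cases μ (fun _ => 1)

/-- `J` with `J e_0 = a e_0 + √μ b e_1`, `J e_i = e_{i+1}`; here `c = √μ b`. -/
noncomputable def J (a c : ℝ) (l : ℕ) : Matrix (Fin (l + 2)) (Fin (l + 1)) ℝ :=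
  Matrix.of fun i j => Fin.cases (motive := fun _ => ℝ)
    (Fin.cases (motive := fun _ => ℝ) a
      (Fin.cases (motive := fun _ => ℝ) c (fun _ => 0)) i)
    (fun j' => Fin.cases (motive := fun _ => ℝ) 0
      (Fin.cases (motive := fun _ => ℝ) 0 (fun i' => if i' = j' then 1 else 0)) i) j

/-- The hierarchy of the counterexample. -/
noncomputable def ex (μ a c : ℝ) : Hierarchy where
  n := fun l => l + 1
  A := fun l => diagonal (dg μ l)
  P := fun l => (2 : ℝ) • J a c l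
  R := fun l => (J a c l)ᵀ
  Lam := fun _ => 1

theorem J00 (a c : ℝ) (l : ℕ) : J a c l 0 0 = a := rfl
theorem J10 (a c : ℝ) (l : ℕ) : J a c l (Fin.succ 0) 0 = c := rfl
theorem Js0 (a c : ℝ) (l : ℕ) (i : Fin l) : J a c l i.succ.succ 0 = 0 := rfl
theorem J0s (a c : ℝ) (l : ℕ) (j : Fin l) : J a c l 0 j.succ = 0 := rfl
theorem J1s (a c : ℝ) (l : ℕ) (j : Fin l) : J a c l (Fin.succ 0) j.succ = 0 := rfl
theorem Jss (a c : ℝ) (l : ℕ) (i j : Fin l) : J a c l i.succ.succ j.succ = if i = j then 1 else 0 :=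
  rfl
theorem dg0 (μ : ℝ) (l : ℕ) : dg μ l 0 = μ := rfl
theorem dgs (μ : ℝ) (l : ℕ) (i : Fin l) : dg μ l i.succ = 1 := rfl

/-- Splitting a sum over `Fin (l+2)`. -/
theorem sum2 (l : ℕ) (f : Fin (l + 2) → ℝ) :
    ∑ i, f i = f 0 + (f (Fin.succ 0) + ∑ i : Fin l, f i.succ.succ) := by
  rw [Fin.sum_univ_succ, Fin.sum_univ_succ]

theorem JT_mulVec_zero (a c : ℝ) (l : ℕ) (v : Fin (l + 2) → ℝ) :
    ((J a c l)ᵀ *ᵥ v) 0 = a * v 0 + c * v (Fin.succ 0) := by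
  rw [mulVec, dotProduct, sum2]
  simp only [transpose_apply, J00, J10, Js0, zero_mul, Finset.sum_const_zero, add_zero]

theorem JT_mulVec_succ (a c : ℝ) (l : ℕ) (v : Fin (l + 2) → ℝ) (j : Fin l) :
    ((J a c l)ᵀ *ᵥ v) j.succ = v j.succ.succ := by
  rw [mulVec, dotProduct, sum2]
  simp only [transpose_apply, J0s, J1s, Jss, zero_mul, zero_add, ite_mul, one_mul]
  simp

/-- `Jᵀ A J = A`. -/
theorem JAJ (μ a c : ℝ) (h : a ^ 2 * μ + c ^ 2 = μ) (l : ℕ) :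
    (J a c l)ᵀ * diagonal (dg μ (l + 1)) * J a c l = diagonal (dg μ l) := by
  have key : ∀ i j, ((J a c l)ᵀ * diagonal (dg μ (l + 1)) * J a c l) i j =
      ∑ k, J a c l k i * dg μ (l + 1) k * J a c l k j := by
    intro i j
    rw [Matrix.mul_apply]
    refine Finset.sum_congr rfl fun k _ => ?_
    rw [Matrix.mul_diagonal, transpose_apply]
  have d1 : dg μ (l + 1) (Fin.succ 0) = 1 := rfl
  have d2 : ∀ k : Fin l, dg μ (l + 1) k.succ.succ = 1 := fun _ => rfl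
  ext i j
  rw [key, sum2, dg0, d1]
  simp only [d2]
  refine Fin.cases ?_ (fun i => ?_) i <;> refine Fin.cases ?_ (fun j => ?_) j
  · simp only [J00, J10, Js0, zero_mul, mul_zero, Finset.sum_const_zero, add_zero,
      diagonal_apply_eq, dg0]
    linarith
  · simp only [J00, J0s, J10, J1s, Js0, zero_mul, mul_zero, Finset.sum_const_zero, add_zero]
    rw [diagonal_apply_ne _ (Fin.succ_ne_zero j).symm]
  · simp only [J00, J0s, J10, J1s, Js0, zero_mul, mul_zero, Finset.sum_const_zero, add_zero]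
    rw [diagonal_apply_ne _ (Fin.succ_ne_zero i)]
  · simp only [J0s, J1s, Jss, zero_mul, mul_zero, zero_add, mul_one, mul_ite]
    by_cases hij : i = j
    · subst hij
      simp [dgs]
    · rw [diagonal_apply_ne _ (fun h => hij (Fin.succ_injective _ h))]
      simp [eq_comm, hij]

theorem P_inj (a c : ℝ) (ha : a ^ 2 ≠ 0) (l : ℕ) :
    Function.Injective ((2 : ℝ) • J a c l).mulVec := by
  intro x y hxy
  have ha' : a ≠ 0 := fun h => ha (by rw [h]; simp)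
  have key : ∀ z : Fin (l + 1) → ℝ, (((2 : ℝ) • J a c l) *ᵥ z) 0 = 2 * (a * z 0) ∧
      ∀ i : Fin l, (((2 : ℝ) • J a c l) *ᵥ z) i.succ.succ = 2 * z i.succ := by
    intro z
    constructor
    · rw [smul_mulVec, Pi.smul_apply, smul_eq_mul, mulVec, dotProduct, Fin.sum_univ_succ]
      simp only [J00, J0s, zero_mul, Finset.sum_const_zero, add_zero]
    · intro i
      rw [smul_mulVec, Pi.smul_apply, smul_eq_mul, mulVec, dotProduct, Fin.sum_univ_succ]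
      simp only [Js0, Jss, zero_mul, zero_add, ite_mul, one_mul]
      simp
  have h0 := congrFun hxy 0
  have hs := fun i : Fin l => congrFun hxy i.succ.succ
  funext i
  refine Fin.cases ?_ (fun i => ?_) i
  · rw [(key x).1, (key y).1] at h0
    exact mul_left_cancel₀ ha' (mul_left_cancel₀ two_ne_zero h0)
  · have := hs i
    rw [(key x).2, (key y).2] at this
    exact mul_left_cancel₀ two_ne_zero this

theorem rho_ex (μ : ℝ) (h0 : 0 < μ) (h1 : μ ≤ 1) (l : ℕ) :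
    rho (diagonal (dg μ (l + 1))) = 1 := by
  have : spectralRadius ℝ (diagonal (dg μ (l + 1))) = 1 := by
    unfold spectralRadius
    rw [spectrum_diagonal]
    apply le_antisymm
    · refine iSup₂_le fun k hk => ?_
      obtain ⟨i, rfl⟩ := hk
      refine Fin.cases ?_ (fun i => ?_) i
      · rw [dg0]
        have : ‖μ‖₊ ≤ 1 := by
          rw [← NNReal.coe_le_coe]
          simp [abs_of_pos h0, h1]
        exact_mod_cast this
      · rw [dgs]; simp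
    · refine le_trans ?_ (le_iSup₂ (f := fun k (_ : k ∈ Set.range (dg μ (l + 1))) =>
        ((‖k‖₊ : NNReal) : ENNReal)) (1 : ℝ) ⟨Fin.succ 0, rfl⟩)
      simp
  rw [rho, this]
  simp

section

variable (μ a c : ℝ)

theorem inv_dg (hμ : μ ≠ 0) (l : ℕ) : (diagonal (dg μ l))⁻¹ = diagonal (dg μ⁻¹ l) := by
  apply Matrix.inv_eq_right_inv
  rw [diagonal_mul_diagonal, ← diagonal_one]
  congr 1
  funext i
  refine Fin.cases ?_ (fun i => ?_) i
  · simp [dg0, hμ]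
  · simp [dgs]

/-- the value of `-E` -/
noncomputable def dseq (κ e : ℝ) : ℕ → ℝ
  | 0 => 0
  | l + 1 => κ * (e + (1 + e) * dseq κ e l)

/-- vectors `(x, 0, …, 0)` -/
noncomputable def fst (x : ℝ) (l : ℕ) : Fin (l + 1) → ℝ := Fin.cases x (fun _ => 0)

theorem fst0 (x : ℝ) (l : ℕ) : fst x l 0 = x := rfl
theorem fsts (x : ℝ) (l : ℕ) (i : Fin l) : fst x l i.succ = 0 := rfl

theorem K_ex (m : ℕ) (hm : 1 ≤ m) (l : ℕ) :
    (ex μ a c).K (l + 1) ^ m = diagonal (fst ((1 - μ) ^ m) (l + 1)) := by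
  have : (ex μ a c).K (l + 1) = diagonal (fst (1 - μ) (l + 1)) := by
    change (1 : Matrix (Fin (l + 2)) (Fin (l + 2)) ℝ) - (1 : ℝ)⁻¹ • diagonal (dg μ (l + 1)) = _
    rw [inv_one, one_smul, ← diagonal_one, diagonal_sub]
    congr 1
    funext i
    refine Fin.cases ?_ (fun i => ?_) i
    · rw [dg0, fst0]
    · rw [dgs, fsts]; simp
  rw [this]
  change (diagonal (fst (1 - μ) (l + 1)) : Matrix (Fin (l + 2)) (Fin (l + 2)) ℝ) ^ m = _
  rw [diagonal_pow]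
  congr 1
  funext i
  refine Fin.cases ?_ (fun i => ?_) i
  · simp [fst0]
  · simp only [Pi.pow_apply, fsts]
    exact zero_pow (by omega)

theorem E_step (m l : ℕ) (X : Matrix (Fin (l + 1)) (Fin (l + 1)) ℝ)
    (K' : Matrix (Fin (l + 2)) (Fin (l + 2)) ℝ) (hX : (ex μ a c).E m 1 l = X)
    (hK : (ex μ a c).K (l + 1) ^ m = K') :
    (ex μ a c).E m 1 (l + 1) = K' * (1 - ((2 : ℝ) • J a c l) * (1 - X ^ 1) *
      ((diagonal (dg μ l))⁻¹ * (J a c l)ᵀ * diagonal (dg μ (l + 1)))) * K' := by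
  subst hX hK
  rfl

theorem pure_step (hμ : μ ≠ 0) (k x : ℝ) (l : ℕ) :
    (diagonal (fst k (l + 1)) : Matrix (Fin (l + 2)) (Fin (l + 2)) ℝ) *
      (1 - ((2 : ℝ) • J a c l) * (1 - diagonal (fst x l)) *
      (diagonal (dg μ⁻¹ l) * (J a c l)ᵀ * diagonal (dg μ (l + 1)))) * diagonal (fst k (l + 1)) =
    diagonal (fst (k ^ 2 * (1 - 2 * a ^ 2 * (1 - x))) (l + 1)) := by
  ext i j
  rw [Matrix.mul_diagonal, Matrix.diagonal_mul]
  refine Fin.cases ?_ (fun i => ?_) i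
  · refine Fin.cases ?_ (fun j => ?_) j
    · rw [fst0, diagonal_apply_eq, fst0, Matrix.sub_apply, Matrix.one_apply_eq,
        ← diagonal_one, diagonal_sub, Matrix.mul_apply]
      simp only [Matrix.mul_diagonal, Matrix.diagonal_mul]
      rw [Fin.sum_univ_succ]
      simp only [Matrix.smul_apply, J00, J0s, transpose_apply, fst0, dg0, smul_eq_mul, mul_zero,
        zero_mul, Finset.sum_const_zero, add_zero]
      field_simp
    · rw [fsts, mul_zero, diagonal_apply_ne _ (Fin.succ_ne_zero j).symm]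
  · rw [fsts, zero_mul, zero_mul]
    by_cases hij : i.succ = j
    · rw [← hij, diagonal_apply_eq, fsts]
    · rw [diagonal_apply_ne _ hij]

theorem E_ex (hμ : μ ≠ 0) (m : ℕ) (hm : 1 ≤ m) (e : ℝ) (ha : 2 * a ^ 2 = 1 + e) (l : ℕ) :
    (ex μ a c).E m 1 l = diagonal (fst (-(dseq ((1 - μ) ^ (2 * m)) e l)) l) := by
  induction l with
  | zero =>
    change (0 : Matrix (Fin 1) (Fin 1) ℝ) = _
    ext i j
    fin_cases i; fin_cases j
    simp [dseq, fst]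
  | succ l ih =>
    have h2 := pure_step μ a c hμ ((1 - μ) ^ m) (-(dseq ((1 - μ) ^ (2 * m)) e l)) l
    have : ((1 - μ) ^ m) ^ 2 * (1 - 2 * a ^ 2 * (1 - -dseq ((1 - μ) ^ (2 * m)) e l)) =
        -dseq ((1 - μ) ^ (2 * m)) e (l + 1) := by
      rw [dseq, ha, ← pow_mul, mul_comm m 2]
      ring
    rw [this] at h2
    rw [← inv_dg μ hμ, ← pow_one (diagonal (fst (-dseq ((1 - μ) ^ (2 * m)) e l) l))] at h2
    exact (E_step μ a c m l _ _ ih (K_ex μ a c m hm l)).trans h2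

end

/-! ### (A2) -/

theorem pure_form (μ a c : ℝ) (l : ℕ) (v : Fin (l + 2) → ℝ) :
    ((1 - ((2 : ℝ) • J a c l) * ((diagonal (dg μ⁻¹ l)) * (J a c l)ᵀ *
      diagonal (dg μ (l + 1)))) *ᵥ v) ⬝ᵥ (diagonal (dg μ (l + 1)) *ᵥ v) =
      μ * v 0 ^ 2 + v (Fin.succ 0) ^ 2 - 2 * (a * (μ * v 0) + c * v (Fin.succ 0)) ^ 2 * μ⁻¹ -
        ∑ i : Fin l, v i.succ.succ ^ 2 := by
  have d1 : dg μ (l + 1) (Fin.succ 0) = 1 := rfl
  have d2 : ∀ k : Fin l, dg μ (l + 1) k.succ.succ = 1 := fun _ => rfl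
  set u : Fin (l + 2) → ℝ := diagonal (dg μ (l + 1)) *ᵥ v with hu
  have hu0 : u 0 = μ * v 0 := by rw [hu, mulVec_diagonal, dg0]
  have hu1 : u (Fin.succ 0) = v (Fin.succ 0) := by rw [hu, mulVec_diagonal, d1, one_mul]
  have hus : ∀ i : Fin l, u i.succ.succ = v i.succ.succ := by
    intro i; rw [hu, mulVec_diagonal, d2, one_mul]
  rw [sub_mulVec, one_mulVec, sub_dotProduct, ← mulVec_mulVec, ← mulVec_mulVec, ← hu,
    ← mulVec_mulVec, smul_mulVec, smul_dotProduct, dotProduct_comm (J a c l *ᵥ _) u,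
    dotProduct_mulVec u (J a c l), ← mulVec_transpose (J a c l)]
  simp only [dotProduct]
  rw [sum2, hu0, hu1, Fin.sum_univ_succ]
  simp only [mulVec_diagonal, JT_mulVec_zero, JT_mulVec_succ, dg0, dgs, hu0, hu1, hus, one_mul,
    smul_eq_mul]
  have : ∑ x : Fin l, v x.succ.succ * v x.succ.succ = ∑ x : Fin l, v x.succ.succ ^ 2 :=
    Finset.sum_congr rfl fun x _ => by ring
  rw [this]
  ring

theorem form_ex (μ a c : ℝ) (hμ : μ ≠ 0) (l : ℕ) (v : Fin (l + 2) → ℝ) :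
    innerA ((ex μ a c).A (l + 1)) ((1 - (ex μ a c).P l * (ex μ a c).Pi l) *ᵥ v) v =
      μ * v 0 ^ 2 + v (Fin.succ 0) ^ 2 - 2 * (a * (μ * v 0) + c * v (Fin.succ 0)) ^ 2 * μ⁻¹ -
        ∑ i : Fin l, v i.succ.succ ^ 2 := by
  have := pure_form μ a c l v
  rw [← inv_dg μ hμ] at this
  exact this

theorem normA_ex (μ a c : ℝ) (l : ℕ) (v : Fin (l + 2) → ℝ) :
    normA ((ex μ a c).A (l + 1)) v =
      Real.sqrt (μ * v 0 ^ 2 + v (Fin.succ 0) ^ 2 + ∑ i : Fin l, v i.succ.succ ^ 2) := by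
  have d1 : dg μ (l + 1) (Fin.succ 0) = 1 := rfl
  have d2 : ∀ k : Fin l, dg μ (l + 1) k.succ.succ = 1 := fun _ => rfl
  have : v ⬝ᵥ (diagonal (dg μ (l + 1)) *ᵥ v) =
      μ * v 0 ^ 2 + v (Fin.succ 0) ^ 2 + ∑ i : Fin l, v i.succ.succ ^ 2 := by
    rw [dotProduct, sum2]
    simp only [mulVec_diagonal, d1, d2, dg0, one_mul]
    have : ∑ x : Fin l, v x.succ.succ * v x.succ.succ = ∑ x : Fin l, v x.succ.succ ^ 2 :=
      Finset.sum_congr rfl fun x _ => by ring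
    rw [this]; ring
  rw [← this]
  rfl

theorem enorm_ex (μ a c : ℝ) (l : ℕ) (v : Fin (l + 2) → ℝ) :
    enorm ((ex μ a c).A (l + 1) *ᵥ v) =
      Real.sqrt (μ ^ 2 * v 0 ^ 2 + v (Fin.succ 0) ^ 2 + ∑ i : Fin l, v i.succ.succ ^ 2) := by
  have d1 : dg μ (l + 1) (Fin.succ 0) = 1 := rfl
  have d2 : ∀ k : Fin l, dg μ (l + 1) k.succ.succ = 1 := fun _ => rfl
  have : (diagonal (dg μ (l + 1)) *ᵥ v) ⬝ᵥ (diagonal (dg μ (l + 1)) *ᵥ v) =
      μ ^ 2 * v 0 ^ 2 + v (Fin.succ 0) ^ 2 + ∑ i : Fin l, v i.succ.succ ^ 2 := by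
    rw [dotProduct, sum2]
    simp only [mulVec_diagonal, d1, d2, dg0, one_mul]
    have : ∑ x : Fin l, v x.succ.succ * v x.succ.succ = ∑ x : Fin l, v x.succ.succ ^ 2 :=
      Finset.sum_congr rfl fun x _ => by ring
    rw [this]; ring
  rw [← this]
  rfl

/-- The estimate behind (A2). -/
theorem a2_core (e a b x y S : ℝ) (he : 0 < e) (he1 : e ≤ 1) (ha : 2 * a ^ 2 = 1 + e)
    (hb : 2 * b ^ 2 = 1 - e) (hS : 0 ≤ S) (al : ℝ) (hal2 : al ≤ 1 / 2)
    (C : ℝ) (hC : 4 ≤ C) :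
    |e ^ 2 * x ^ 2 + y ^ 2 - 2 * (a * (e ^ 2 * x) + (e * b) * y) ^ 2 * (e ^ 2)⁻¹ - S| ≤
      C / 1 ^ al * Real.sqrt ((e ^ 2) ^ 2 * x ^ 2 + y ^ 2 + S) ^ (2 * al) *
        Real.sqrt (e ^ 2 * x ^ 2 + y ^ 2 + S) ^ (2 * (1 - al)) := by
  set T := Real.sqrt ((e ^ 2) ^ 2 * x ^ 2 + y ^ 2 + S) with hT
  set W := Real.sqrt (e ^ 2 * x ^ 2 + y ^ 2 + S) with hW
  have hT0 : 0 ≤ T := Real.sqrt_nonneg _
  have hW0 : 0 ≤ W := Real.sqrt_nonneg _
  have hT2 : T ^ 2 = (e ^ 2) ^ 2 * x ^ 2 + y ^ 2 + S := Real.sq_sqrt (by positivity)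
  have hW2 : W ^ 2 = e ^ 2 * x ^ 2 + y ^ 2 + S := Real.sq_sqrt (by positivity)
  have he2 : e ^ 2 ≤ 1 := by nlinarith
  have hTW : T ≤ W := by
    apply Real.sqrt_le_sqrt
    have : (e ^ 2) ^ 2 * x ^ 2 ≤ e ^ 2 * x ^ 2 := by
      nlinarith [mul_nonneg (sq_nonneg (e * x)) (sub_nonneg.mpr he2)]
    linarith
  -- the reflection form
  have hform : e ^ 2 * x ^ 2 + y ^ 2 - 2 * (a * (e ^ 2 * x) + (e * b) * y) ^ 2 * (e ^ 2)⁻¹ - S =
      -e * (e * x) ^ 2 + e * y ^ 2 - 4 * a * b * (e * x) * y - S := by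
    have h1 : 2 * (a * (e ^ 2 * x) + (e * b) * y) ^ 2 * (e ^ 2)⁻¹ =
        2 * a ^ 2 * (e * x) ^ 2 + 2 * b ^ 2 * y ^ 2 + 4 * a * b * (e * x) * y := by
      field_simp
      ring
    rw [h1, ha, hb]; ring
  rw [hform]
  have hab : |4 * a * b| ≤ 2 := by
    apply abs_le_of_sq_le_sq _ (by norm_num)
    have : (4 * a * b) ^ 2 = 4 * (2 * a ^ 2) * (2 * b ^ 2) := by ring
    rw [this, ha, hb]; nlinarith [sq_nonneg e]
  have hX : |e * x| ≤ W := by
    apply Real.abs_le_sqrt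
    nlinarith [sq_nonneg y]
  have heX : e * |e * x| ≤ T := by
    rw [← abs_of_pos he, ← abs_mul, abs_of_pos he]
    apply Real.abs_le_sqrt
    nlinarith [sq_nonneg y]
  have hy : |y| ≤ T := by
    apply Real.abs_le_sqrt
    nlinarith [sq_nonneg ((e ^ 2) * x)]
  have hyS : y ^ 2 + S ≤ T ^ 2 := by
    rw [hT2]; nlinarith [sq_nonneg ((e ^ 2) * x)]
  have hbound : |-e * (e * x) ^ 2 + e * y ^ 2 - 4 * a * b * (e * x) * y - S| ≤ 4 * (T * W) := by
    have t1 : |-e * (e * x) ^ 2| ≤ T * W := by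
      rw [abs_mul, abs_neg, abs_of_pos he, abs_pow, sq, ← mul_assoc]
      exact mul_le_mul heX hX (abs_nonneg _) hT0
    have t2 : |e * y ^ 2| ≤ y ^ 2 := by
      rw [abs_mul, abs_of_pos he, abs_of_nonneg (sq_nonneg y)]
      nlinarith [sq_nonneg y]
    have t3 : |4 * a * b * (e * x) * y| ≤ 2 * (T * W) := by
      rw [abs_mul, abs_mul]
      calc |4 * a * b| * |e * x| * |y| ≤ 2 * W * T := by gcongr
        _ = 2 * (T * W) := by ring
    have t4 : |S| = S := abs_of_nonneg hS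
    have t5 : T ^ 2 ≤ T * W := by rw [sq]; exact mul_le_mul_of_nonneg_left hTW hT0
    calc |-e * (e * x) ^ 2 + e * y ^ 2 - 4 * a * b * (e * x) * y - S|
        ≤ |-e * (e * x) ^ 2| + |e * y ^ 2| + |4 * a * b * (e * x) * y| + |S| := by
          refine (abs_sub _ _).trans (add_le_add_left ((abs_sub _ _).trans
            (add_le_add_left (abs_add_le _ _) _)) _)
      _ ≤ 4 * (T * W) := by linarith
  refine hbound.trans ?_
  rw [Real.one_rpow, div_one]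
  rcases hT0.eq_or_lt with h0 | hTpos
  · rw [← h0, zero_mul, mul_zero]
    positivity
  · have hWpos : 0 < W := hTpos.trans_le hTW
    have e1 : T = T ^ (2 * al) * T ^ (1 - 2 * al) := by
      rw [← Real.rpow_add hTpos]; norm_num
    have e2 : W ^ (2 * (1 - al)) = W ^ (1 - 2 * al) * W := by
      rw [show 2 * (1 - al) = (1 - 2 * al) + 1 by ring, Real.rpow_add hWpos, Real.rpow_one]
    have e3 : T ^ (1 - 2 * al) ≤ W ^ (1 - 2 * al) :=
      Real.rpow_le_rpow hT0 hTW (by linarith)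
    calc 4 * (T * W) = 4 * (T ^ (2 * al) * T ^ (1 - 2 * al) * W) := by rw [← e1]
      _ ≤ C * (T ^ (2 * al) * W ^ (1 - 2 * al) * W) := by gcongr
      _ = C * T ^ (2 * al) * W ^ (2 * (1 - al)) := by rw [e2]; ring

theorem A2_ex (e a b : ℝ) (he : 0 < e) (he1 : e ≤ 1) (ha : 2 * a ^ 2 = 1 + e)
    (hb : 2 * b ^ 2 = 1 - e) (hμ : e ^ 2 ≠ 0) (al : ℝ) (hal2 : al ≤ 1 / 2)
    (C : ℝ) (hC : 4 ≤ C) (k : ℕ) (v : Fin (k + 2) → ℝ) :
    |innerA ((ex (e ^ 2) a (e * b)).A (k + 1))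
      ((1 - (ex (e ^ 2) a (e * b)).P k * (ex (e ^ 2) a (e * b)).Pi k) *ᵥ v) v| ≤
      C / 1 ^ al * enorm ((ex (e ^ 2) a (e * b)).A (k + 1) *ᵥ v) ^ (2 * al) *
        normA ((ex (e ^ 2) a (e * b)).A (k + 1)) v ^ (2 * (1 - al)) := by
  have key := a2_core e a b (v 0) (v (Fin.succ 0)) (∑ i : Fin k, v i.succ.succ ^ 2) he he1 ha hb
    (Finset.sum_nonneg fun i _ => sq_nonneg _) al hal2 C hC
  rw [← form_ex (e ^ 2) a (e * b) hμ k v, ← enorm_ex (e ^ 2) a (e * b) k v,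
    ← normA_ex (e ^ 2) a (e * b) k v] at key
  exact key

theorem unbounded (κ e : ℝ) (hκ : 0 < κ) (he : 0 < e) (h : 1 < κ * (1 + e)) (l : ℕ) :
    l * (κ * e) ≤ dseq κ e l := by
  induction l with
  | zero => simp [dseq]
  | succ l ih =>
    rw [dseq]
    push_cast
    have h0 : 0 ≤ dseq κ e l := le_trans (by positivity) ih
    nlinarith

/-- **Negative answer to Q1.**  For every `α ∈ (0, 1/2]`, every `C_R ≥ 1`, every `C_{A2}` with
`C_{A2}^{2α} ≥ 4` and every number `m ≥ 1` of smoothing steps, the V-cycle error operators of the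
admissible hierarchies are not even uniformly bounded; so no threshold `m₀(C_R, C_{A2}, α)`
exists. -/
theorem result :
    (∀ (al CR CA : ℝ), 0 < al → al ≤ 1 / 2 → 1 ≤ CR → 0 < CA → 4 ≤ CA ^ (2 * al) →
      ∀ m : ℕ, 1 ≤ m → ∀ B : ℝ, ∃ (H : Hierarchy) (L : ℕ), H.IsHierarchy L ∧ H.G3 L ∧
        H.RC CR L ∧ H.A2 CA al L ∧
        ∃ v, v ≠ 0 ∧ B * normA (H.A L) v < normA (H.A L) (H.E m 1 L *ᵥ v)) ∧
    ¬ ∃ m₀ : ℝ → ℝ → ℝ → ℕ, ∀ CR CA al : ℝ, 1 ≤ CR → 0 < CA → 0 < al → al ≤ 1 →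
      ∀ m : ℕ, m₀ CR CA al ≤ m → UniformContraction CR CA al m := by
  have main : ∀ (al CR CA : ℝ), 0 < al → al ≤ 1 / 2 → 1 ≤ CR → 0 < CA → 4 ≤ CA ^ (2 * al) →
      ∀ m : ℕ, 1 ≤ m → ∀ B : ℝ, ∃ (H : Hierarchy) (L : ℕ), H.IsHierarchy L ∧ H.G3 L ∧
        H.RC CR L ∧ H.A2 CA al L ∧
        ∃ v, v ≠ 0 ∧ B * normA (H.A L) v < normA (H.A L) (H.E m 1 L *ᵥ v) := by
    intro al CR CA hal hal2 hCR hCA hC m hm B
    have hm' : (1 : ℝ) ≤ m := by exact_mod_cast hm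
    set e : ℝ := 1 / (4 * m) with he
    have he0 : 0 < e := by positivity
    have he1 : e ≤ 1 / 4 := by
      rw [he, div_le_div_iff₀ (by positivity) (by norm_num)]; linarith
    set a : ℝ := Real.sqrt ((1 + e) / 2) with ha
    set b : ℝ := Real.sqrt ((1 - e) / 2) with hb
    have ha2 : 2 * a ^ 2 = 1 + e := by rw [ha, Real.sq_sqrt (by linarith)]; ring
    have hb2 : 2 * b ^ 2 = 1 - e := by rw [hb, Real.sq_sqrt (by linarith)]; ring
    have hμ : (0 : ℝ) < e ^ 2 := by positivity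
    have hμ1 : e ^ 2 ≤ 1 := by nlinarith
    have hab : a ^ 2 * e ^ 2 + (e * b) ^ 2 = e ^ 2 := by nlinarith
    set κ : ℝ := (1 - e ^ 2) ^ (2 * m) with hκ
    have hκ1 : 1 - e / 2 ≤ κ := by
      have := one_add_mul_le_pow (a := -e ^ 2) (by nlinarith) (2 * m)
      rw [hκ, sub_eq_add_neg 1 (e ^ 2)]
      have h4 : (m : ℝ) * e = 1 / 4 := by rw [he]; field_simp
      refine le_trans (le_of_eq ?_) this
      push_cast
      have : 2 * (m : ℝ) * -e ^ 2 = - 2 * (m * e) * e := by ring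
      rw [this, h4]; ring
    have hκ0 : 0 < κ := by linarith
    have hκe : 1 < κ * (1 + e) := by nlinarith
    obtain ⟨l, hl⟩ := exists_nat_gt (|B| / (κ * e))
    have hl0 : 1 ≤ l + 1 := by omega
    have hdl : |B| < dseq κ e (l + 1) := by
      rw [div_lt_iff₀ (by positivity)] at hl
      have := unbounded κ e hκ0 he0 hκe (l + 1)
      push_cast at this
      have h5 : 0 < κ * e := by positivity
      linarith
    refine ⟨ex (e ^ 2) a (e * b), l + 1, ⟨hl0, ?_, ?_⟩, ?_, ?_, ?_, ?_⟩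
    · intro k _
      have : (diagonal (dg (e ^ 2) k)).PosDef := by
        rw [posDef_diagonal_iff]
        intro i
        refine Fin.cases ?_ (fun i => ?_) i
        · rw [dg0]; exact hμ
        · rw [dgs]; exact one_pos
      exact this
    · intro k _
      exact P_inj a (e * b) (by nlinarith) k
    · refine ⟨1 / 2, by norm_num, by norm_num, fun k _ => ⟨?_, ?_⟩⟩
      · change (J a (e * b) k)ᵀ = (1 / 2 : ℝ) • ((2 : ℝ) • J a (e * b) k)ᵀ
        rw [transpose_smul, smul_smul]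
        norm_num
      · change (J a (e * b) k)ᵀ * diagonal (dg (e ^ 2) (k + 1)) * ((2 : ℝ) • J a (e * b) k) =
          (2 : ℝ) • diagonal (dg (e ^ 2) k)
        rw [Matrix.mul_smul, JAJ _ _ _ hab]
    · intro k hk _
      obtain ⟨k, rfl⟩ : ∃ j, k = j + 1 := ⟨k - 1, by omega⟩
      have : rho ((ex (e ^ 2) a (e * b)).A (k + 1)) = 1 := rho_ex _ hμ hμ1 k
      rw [this]
      exact ⟨le_rfl, by change (1 : ℝ) ≤ _; linarith⟩
    · intro k _ v
      have : rho ((ex (e ^ 2) a (e * b)).A (k + 1)) = 1 := rho_ex _ hμ hμ1 k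
      rw [this]
      exact A2_ex e a b he0 (by linarith) ha2 hb2 hμ.ne' al hal2 _ hC k v
    · refine ⟨fst 1 (l + 1), ?_, ?_⟩
      · intro h
        have := congrFun h 0
        change (1 : ℝ) = 0 at this
        exact one_ne_zero this
      · have hE := E_ex (e ^ 2) a (e * b) hμ.ne' m hm e ha2 (l + 1)
        rw [hE]
        have n1 := normA_ex (e ^ 2) a (e * b) l (fst 1 (l + 1))
        have hv : (diagonal (fst (-dseq ((1 - e ^ 2) ^ (2 * m)) e (l + 1)) (l + 1)) *ᵥ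
            fst 1 (l + 1)) = fst (-dseq κ e (l + 1)) (l + 1) := by
          funext i
          rw [mulVec_diagonal]
          refine Fin.cases ?_ (fun i => ?_) i
          · rw [fst0, fst0, mul_one]
          · rw [fsts, fsts, mul_zero]
        have n2 := normA_ex (e ^ 2) a (e * b) l (fst (-dseq κ e (l + 1)) (l + 1))
        rw [← hv] at n2
        have r1 : ∀ x : ℝ, Real.sqrt (e ^ 2 * fst x (l + 1) 0 ^ 2 + fst x (l + 1) (Fin.succ 0) ^ 2 +
            ∑ i : Fin l, fst x (l + 1) i.succ.succ ^ 2) = e * |x| := by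
          intro x
          simp only [fst0, fsts]
          rw [show e ^ 2 * x ^ 2 + 0 ^ 2 + ∑ i : Fin l, (0 : ℝ) ^ 2 = (e * |x|) ^ 2 by
            rw [mul_pow, sq_abs]; simp]
          exact Real.sqrt_sq (by positivity)
        rw [r1] at n1
        rw [hv, r1, ← hv] at n2
        refine lt_of_le_of_lt (le_of_eq (congrArg (fun t => B * t) n1)) (lt_of_lt_of_eq ?_ n2.symm)
        rw [abs_one, mul_one, abs_neg]
        have : dseq κ e (l + 1) ≤ |dseq κ e (l + 1)| := le_abs_self _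
        have hBB := le_abs_self B
        nlinarith
  refine ⟨main, ?_⟩
  rintro ⟨m₀, h⟩
  obtain ⟨δ, hδ, hH⟩ := h 1 4 (1 / 2) le_rfl (by norm_num) (by norm_num) (by norm_num)
    (max 1 (m₀ 1 4 (1 / 2))) (le_max_right _ _)
  obtain ⟨H, L, h1, h2, h3, h4, v, hv, h5⟩ := main (1 / 2) 1 4 (by norm_num) le_rfl le_rfl
    (by norm_num) (by norm_num) (max 1 (m₀ 1 4 (1 / 2))) (le_max_left _ _) δ
  exact absurd (hH H L h1 h2 h3 h4 v) (not_le.mpr h5)

end Pool.Agent.Results.MP_89e789_an.NoThreshold
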